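import Pool.Agent.Helper36.HS.St
import Pool.Agent.Helper86.HU.EX

/-! # HS module XS: the transversal -/

namespace Pool.Agent.Helper68.HS.XS

open Ordinal Cardinal ZFSet Order Pool.Agent.Helper73.HODC Pool.Agent.Helper73.HE
open Pool.Agent.Helper73.HM Pool.Agent.Helper73.HU Pool.Agent.Helper73.HV
open Pool.Agent.Helper36.HS

/-- a set of ordinals of small cardinality has small order type -/
theorem otp_of_inj {c : Cardinal.{0}} {i : Ordinal.{0}} (hi : i < c.ord) {S : Set Ordinal.{0}}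
    (φ : Ordinal.{0} → Ordinal.{0}) (h1 : ∀ x ∈ S, φ x < i)
    (h2 : ∀ x ∈ S, ∀ y ∈ S, φ x = φ y → x = y) : OtpLt S c.ord := by
  classical
  let T : Type := {t : i.ToType // ∃ x ∈ S, φ x = (Ordinal.ToType.mk.symm t).1}
  have hT : ∀ t : T, ∃ x ∈ S, φ x = (Ordinal.ToType.mk.symm t.1).1 := fun t => t.2
  choose e he he' using hT
  have einj : Function.Injective e := by
    intro t t' htt
    have k1 : (Ordinal.ToType.mk.symm t.1).1 = (Ordinal.ToType.mk.symm t'.1).1 := by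
      rw [← he' t, ← he' t', htt]
    have k2 := Subtype.ext k1
    exact Subtype.ext ((Ordinal.ToType.mk.symm).injective k2)
  let f : T ↪ Ordinal.{0} := ⟨e, einj⟩
  let r : T → T → Prop := fun a b => e a < e b
  let F : r ↪r ((· < ·) : Ordinal.{0} → Ordinal.{0} → Prop) := ⟨f, Iff.rfl⟩
  have hw : IsWellOrder T r := F.isWellOrder
  have hcard : (Ordinal.type r).card < c := by
    rw [Ordinal.card_type]
    have k1 : #T ≤ #i.ToType := Cardinal.mk_subtype_le _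
    rw [Cardinal.mk_toType] at k1
    exact k1.trans_lt (Cardinal.lt_ord.mp hi)
  have hlt : Ordinal.type r < c.ord := Cardinal.lt_ord.mpr hcard
  let t : ∀ x, x ∈ S → T := fun x hx => ⟨Ordinal.ToType.mk ⟨φ x, h1 x hx⟩, x, hx, by
    rw [OrderIso.symm_apply_apply]⟩
  have ht : ∀ x hx, e (t x hx) = x := by
    intro x hx
    apply h2 _ (he _) _ hx
    rw [he' (t x hx)]
    simp only [t, OrderIso.symm_apply_apply]
  refine ⟨Ordinal.type r, hlt, fun x => if hx : x ∈ S then Ordinal.typein r (t x hx) else 0, ?_, ?_⟩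
  · intro a ha
    simp only [dif_pos ha]
    exact Ordinal.typein_lt_type r _
  · intro a ha b hb hab
    simp only [dif_pos ha, dif_pos hb]
    rw [Ordinal.typein_lt_typein]
    change e (t a ha) < e (t b hb)
    rw [ht a ha, ht b hb]
    exact hab

theorem cae_mono {c : Cardinal.{0}} {P Q : Ordinal.{0} → Prop} (h : CAE c P)
    (h' : ∀ i, i < c.ord → P i → Q i) : CAE c Q := by
  obtain ⟨C, hC, hC'⟩ := h
  exact ⟨C, hC, fun i hi hic => h' i hic (hC' i hi hic)⟩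

theorem xs (h1 : StFA) (h2 : StTF) (h3 : StEB) (h4 : StCA) : StXS := by
  intro c δ g h A Y hch hreg hA hat hY hcae
  obtain ⟨cand, -, -, -⟩ := h4 c hch.reg hch.unc
  have hκ : ℵ₀ < c.ord.cof := by rw [hch.reg.cof_ord]; exact hch.unc
  have tf := h2 c δ g h hch A
  have hYat : ∀ i j : ℕ, DP (fun v => (v i).rank ∈ Y (v j).rank) := fun i j =>
    hY.rename (fun n => if n = 0 then i else j)
  have hne : ∀ P : Prop, CAE c (fun i => h i ∈ A → P) → P := by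
    intro P hP
    by_contra hn
    exact (tf (fun _ => P)).2 hP (hat.1.mono (fun a ha _ => ⟨ha, hn⟩))
  obtain ⟨X, hXd⟩ : ∃ X : Set Ordinal.{0},
    X = {ξ | ξ < δ ∧ ¬ Stat {a | a ∈ A ∧ ξ ∉ Y a} δ} := ⟨_, rfl⟩
  have hX : DPs X := by
    have k1 : DP (fun v => ¬ Stat {a | a ∈ A ∧ (v 0).rank ∉ Y a} δ) := by
      refine dp_subst_at (Q := fun x v => ¬ Stat {a | a ∈ A ∧ (v 0).rank ∉ Y a} x) ?_ δ
      refine DP.not (DP.statV (Q := fun a v => a ∈ A ∧ (v 1).rank ∉ Y a) ?_ 0)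
      exact (hA.at 0).and (DP.not (hYat 2 0))
    rw [hXd]
    exact (DP.rank_lt_ord 0 δ).and k1
  have hunb : ∀ β < δ, ∃ b ∈ X, β < b ∧ b < δ := by
    intro β hβ
    have hr : DP (fun v => sInf {b | b ∈ Y (v 0).rank ∧ β < b} = (v 1).rank) :=
      Pool.Agent.Helper86.HU.EX.dp_sInf (S := fun a => {b | b ∈ Y a ∧ β < b})
        ((hYat 1 0).and (DP.ord_lt_rank 1 β)) 0 1
    have k1 : CAE c (fun i => β < h i) := by
      rw [← hch.top] at hβ
      obtain ⟨k, hk, hk'⟩ := (hch.nor.lt_iff_exists_lt (isSuccLimit_of_cof hκ)).1 hβ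
      exact ⟨{i | k < i}, club_Ioi (isSuccLimit_of_cof hκ) hk, fun i hi _ =>
        hk'.trans (hch.nor.strictMono hi)⟩
    have k2 : CAE c (fun i => h i ∈ A → sInf {b | b ∈ Y (h i) ∧ β < b} ∈ Im g i ∧
        sInf {b | b ∈ Y (h i) ∧ β < b} ∈ Y (h i) ∧ β < sInf {b | b ∈ Y (h i) ∧ β < b}) := by
      refine cae_mono (cand _ _ hcae k1) ?_
      rintro i hic ⟨h5, h6⟩ hiA
      obtain ⟨h7, h8⟩ := h5 hiA
      obtain ⟨b, hb, hβb, -⟩ := h8 β h6
      obtain ⟨h9, h10⟩ := csInf_mem (s := {b | b ∈ Y (h i) ∧ β < b}) ⟨b, hb, hβb⟩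
      exact ⟨h7 h9, h9, h10⟩
    obtain ⟨ξ, hξ, hξ'⟩ := h1 c δ g h A (fun a => sInf {b | b ∈ Y a ∧ β < b}) hch hat hr
      (cae_mono k2 fun i _ h5 hiA => (h5 hiA).1)
    have k3 := (tf (fun a => sInf {b | b ∈ Y a ∧ β < b} = ξ)).1 hξ'
    have k4 : CAE c (fun i => h i ∈ A → ξ ∈ Y (h i) ∧ β < ξ) := by
      refine cae_mono (cand _ _ k2 k3) ?_
      rintro i hic ⟨h5, h6⟩ hiA
      obtain ⟨-, h7, h8⟩ := h5 hiA
      rw [h6 hiA] at h7 h8
      exact ⟨h7, h8⟩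
    have k5 : β < ξ := hne _ (cae_mono k4 fun i _ h5 hiA => (h5 hiA).2)
    refine ⟨ξ, ?_, k5, hξ⟩
    rw [hXd]
    exact ⟨hξ, (tf (fun a => ξ ∈ Y a)).2 (cae_mono k4 fun i _ h5 hiA => (h5 hiA).1)⟩
  have heb := h3 δ X hreg hX hunb
  have hen : ∀ i j : ℕ, DP (fun v => Enum X (v i).rank (v j).rank) := fun i j =>
    (DP.enum hX).rename (fun n => if n = 0 then i else j)
  refine ⟨fun a i => i < δ ∧ ∃ b, Enum X i b ∧ b ∈ Y a, ?_, ?_, ?_, ?_⟩
  · exact (DP.rank_lt_ord 1 δ).and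
      (DP.exO (Q := fun b v => Enum X (v 1).rank b ∧ b ∈ Y (v 0).rank)
        ((hen 2 0).and (hYat 0 1)))
  · intro i hi hst
    obtain ⟨b, hb, hb'⟩ := heb i hi
    have hbX := hb'.1
    rw [hXd] at hbX
    refine hbX.2 (hst.mono ?_)
    rintro a ⟨ha, ha'⟩ haδ
    exact ⟨ha, fun hbY => ha' ⟨hi, b, hb', hbY⟩⟩
  · refine (tf (fun a => OtpLt {i | i < δ ∧ (i < δ ∧ ∃ b, Enum X i b ∧ b ∈ Y a)} c.ord)).2 ?_
    refine cae_mono hcae ?_
    intro i hic h5 hiA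
    obtain ⟨h6, -⟩ := h5 hiA
    have hex : ∀ j, ∃ k, j ∈ {j | j < δ ∧ (j < δ ∧ ∃ b, Enum X j b ∧ b ∈ Y (h i))} →
        k < i ∧ Enum X j (g k) := by
      intro j
      by_cases hj : j ∈ {j | j < δ ∧ (j < δ ∧ ∃ b, Enum X j b ∧ b ∈ Y (h i))}
      · obtain ⟨-, -, b, hb, hb'⟩ := hj
        obtain ⟨k, hk, hk'⟩ := h6 hb'
        exact ⟨k, fun _ => ⟨hk, by rw [hk']; exact hb⟩⟩
      · exact ⟨0, fun h7 => absurd h7 hj⟩
    choose φ hφ using hex
    refine otp_of_inj hic φ (fun x hx => (hφ x hx).1) ?_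
    intro x hx y hy hxy
    have h7 := (hφ x hx).2
    have h8 := (hφ y hy).2
    rw [hxy] at h7
    exact enum_inj h7 h8
  · intro r hr hr'
    have k1 := (tf (fun a => r a < δ ∧ (r a < δ ∧ ∃ b, Enum X (r a) b ∧ b ∈ Y a))).1 hr'
    have hr2 : DP (fun v => sInf {b | Enum X (r (v 0).rank) b} = (v 1).rank) := by
      refine Pool.Agent.Helper86.HU.EX.dp_sInf (S := fun a => {b | Enum X (r a) b}) ?_ 0 1
      refine (DP.exO (Q := fun d v => r (v 0).rank = d ∧ Enum X d (v 1).rank)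
        ((hr.rename (fun n => if n = 0 then 1 else 0)).and (hen 0 2))).congr fun v => ?_
      constructor
      · intro h5
        exact ⟨_, rfl, h5⟩
      · rintro ⟨d, hd, h5⟩
        rw [← hd] at h5
        exact h5
    have k2 : CAE c (fun i => h i ∈ A → r (h i) < δ ∧
        Enum X (r (h i)) (sInf {b | Enum X (r (h i)) b}) ∧
        sInf {b | Enum X (r (h i)) b} ∈ Im g i) := by
      refine cae_mono (cand _ _ k1 hcae) ?_
      rintro i hic ⟨h5, h6⟩ hiA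
      obtain ⟨h7, -, b, hb, hbY⟩ := h5 hiA
      have h8 : Enum X (r (h i)) (sInf {b | Enum X (r (h i)) b}) :=
        csInf_mem (s := {b | Enum X (r (h i)) b}) ⟨b, hb⟩
      refine ⟨h7, h8, ?_⟩
      rw [enum_unique h8 hb]
      exact (h6 hiA).1 hbY
    obtain ⟨b₀, hb₀, hb₀'⟩ := h1 c δ g h A (fun a => sInf {b | Enum X (r a) b}) hch hat hr2
      (cae_mono k2 fun i _ h5 hiA => (h5 hiA).2.2)
    have k3 := (tf (fun a => sInf {b | Enum X (r a) b} = b₀)).1 hb₀'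
    have k4 : CAE c (fun i => h i ∈ A → r (h i) < δ ∧ Enum X (r (h i)) b₀) := by
      refine cae_mono (cand _ _ k2 k3) ?_
      rintro i hic ⟨h5, h6⟩ hiA
      obtain ⟨h7, h8, -⟩ := h5 hiA
      rw [h6 hiA] at h8
      exact ⟨h7, h8⟩
    obtain ⟨ξ, hξ, hξ'⟩ : ∃ ξ, ξ < δ ∧ Enum X ξ b₀ :=
      hne _ (cae_mono k4 fun i _ h5 hiA => ⟨_, (h5 hiA).1, (h5 hiA).2⟩)
    refine ⟨ξ, hξ, (tf (fun a => r a = ξ)).2 ?_⟩
    exact cae_mono k4 fun i _ h5 hiA => enum_inj (h5 hiA).2 hξ'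

end Pool.Agent.Helper68.HS.XS
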