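import Pool.Agent.Helper36.HS.St

/-! # HS module FA: Fodor's lemma for an atom -/

namespace Pool.Agent.Helper68.HS.FA

open Ordinal Cardinal ZFSet Order Pool.Agent.Helper73.HODC Pool.Agent.Helper73.HE
open Pool.Agent.Helper73.HM Pool.Agent.Helper73.HU Pool.Agent.Helper73.HV
open Pool.Agent.Helper36.HS

theorem fa (h : StTR) : StFA := by
  intro c δ g hh A r hch hat hr hcae
  obtain ⟨C, hC, hC'⟩ := hcae
  have hκ : ℵ₀ < c.ord.cof := by rw [hch.reg.cof_ord]; exact hch.unc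
  have htr := h hh hch.nor c.ord hκ
  rw [hch.top] at htr
  have hT : Stat {i | hh i ∈ A} c.ord := (htr A).1 hat.1
  have hTC := hT.inter_club hκ hC
  have hex : ∀ i, ∃ k, i ∈ {i | hh i ∈ A} ∩ C → i < c.ord → k < i ∧ g k = r (hh i) := by
    intro i
    by_cases hi : i ∈ {i | hh i ∈ A} ∩ C ∧ i < c.ord
    · obtain ⟨k, hk, hk'⟩ := hC' i hi.1.2 hi.2 hi.1.1
      exact ⟨k, fun _ _ => ⟨hk, hk'⟩⟩
    · exact ⟨0, fun h1 h2 => absurd ⟨h1, h2⟩ hi⟩
  choose φ hφ using hex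
  obtain ⟨b, hb, hst⟩ := fodor hch.reg hch.unc hTC (r := φ) (fun a ha hac _ => (hφ a ha hac).1)
  refine ⟨g b, hch.gm b hb, ?_⟩
  have hst1 : Stat {a | a ∈ A ∧ r a = g b} δ := by
    rw [htr]
    refine hst.mono ?_
    rintro i ⟨hi, hib⟩ hic
    refine ⟨hi.1, ?_⟩
    rw [← (hφ i hi hic).2, hib]
  have hdp : DPs {a | r a = g b} :=
    dp_subst_at (Q := fun x v => r (v 0).rank = x) (hr.rename (fun n => if n = 0 then 1 else 0))
      (g b)
  intro hcon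
  refine hat.2 (ordSet δ {a | r a = g b}) (od_ordSet hdp δ) (ordSet_sub _ _) ⟨?_, ?_⟩
  · refine hst1.mono ?_
    rintro a ⟨ha, hra⟩ haδ
    exact ⟨ha, mem_st_ordSet.2 ⟨haδ, hra⟩⟩
  · refine hcon.mono ?_
    rintro a ⟨ha, hra⟩ haδ
    refine ⟨ha, fun h1 => hra (mem_st_ordSet.1 h1).2⟩

end Pool.Agent.Helper68.HS.FA
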